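import Pool.Agent.Helper826.Kap.Square

/-!
The characteristic and the orders of the elements when the augmentation ideal is contained in the
Jacobson radical.
-/

set_option autoImplicit false

namespace Pool.Agent.Helper826.Kap

open MonoidAlgebra Polynomial

theorem isUnit_of_jacobson {R : Type} [Ring R] (I : Ideal R) (hJ : I ≤ Ideal.jacobson ⊥) :
    ∀ x ∈ I, IsUnit (1 + x) := by
  have hleft : ∀ x ∈ I, ∃ z, z * (1 + x) = 1 := by
    intro x hx
    obtain ⟨z, hz⟩ := Ideal.mem_jacobson_iff.mp (hJ hx) 1
    refine ⟨z, ?_⟩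
    rw [Ideal.mem_bot, sub_eq_zero, mul_one] at hz
    rw [mul_add, mul_one, add_comm]
    exact hz
  intro x hx
  obtain ⟨z, hz⟩ := hleft x hx
  have h3 : z = 1 + (-(z * x)) := by
    rw [mul_add, mul_one] at hz
    rw [← hz]; abel
  obtain ⟨w, hw⟩ := hleft (-(z * x)) (I.neg_mem (I.mul_mem_left z hx))
  rw [← h3] at hw
  have h4 : w = 1 + x := by
    calc w = w * (z * (1 + x)) := by rw [hz, mul_one]
      _ = 1 + x := by rw [← mul_assoc, hw, one_mul]
  rw [h4] at hw
  exact ⟨⟨1 + x, z, hw, hz⟩, rfl⟩

theorem algebraic_nilpotent (K : Type) [Field K] (G : Type) [Group G]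
    (hJ : Aug K G ≤ Ideal.jacobson ⊥) (x : MonoidAlgebra K G) (hx : x ∈ Aug K G) (p : K[X])
    (hp : p ≠ 0) (h0 : aeval x p = 0) : IsNilpotent x := by
  by_contra hnil
  exact transcendental_of_radical (k := K) (Aug K G) (aug_right K G)
    (isUnit_of_jacobson _ hJ) x hx (fun n h => hnil ⟨n, h⟩) p hp h0

theorem prime_order (K : Type) [Field K] (G : Type) [Group G]
    (hJ : Aug K G ≤ Ideal.jacobson ⊥) (h : G) (q : ℕ) (hq : q.Prime) (ho : orderOf h = q) :
    (q : K) = 0 := by
  classical
  by_contra hqK
  let N : MonoidAlgebra K G := ∑ i ∈ Finset.range q, single (h ^ i) (1 : K)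
  let x : MonoidAlgebra K G := (q : MonoidAlgebra K G) - N
  have hhq : h ^ q = 1 := by rw [← ho]; exact pow_orderOf_eq_one h
  have hxsum : x = - ∑ i ∈ Finset.range q, (MonoidAlgebra.of K G (h ^ i) - 1) := by
    rw [Finset.sum_sub_distrib]
    simp only [Finset.sum_const, Finset.card_range, nsmul_eq_mul, mul_one,
      MonoidAlgebra.of_apply]
    change (q : MonoidAlgebra K G) - N = -(N - q)
    abel
  have hx : x ∈ Aug K G := by
    rw [hxsum]
    exact Ideal.neg_mem_iff _ |>.2 (Ideal.sum_mem _ (fun i _ => Ideal.subset_span ⟨h ^ i, rfl⟩))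
  have hshift : ∀ j : ℕ, single (h ^ j) (1 : K) * N = N := by
    intro j
    induction j with
    | zero => rw [pow_zero, ← one_def, one_mul]
    | succ j ih =>
      have h1 : single (h ^ (j + 1)) (1 : K) = single (h ^ j) 1 * single h 1 := by
        rw [single_mul_single, one_mul, pow_succ]
      have h2 : single h (1 : K) * N = N := by
        change single h (1 : K) * ∑ i ∈ Finset.range q, single (h ^ i) (1 : K) = N
        rw [Finset.mul_sum]
        have h3 : ∀ i ∈ Finset.range q, single h (1 : K) * single (h ^ i) (1 : K)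
            = single (h ^ (i + 1)) (1 : K) := by
          intro i _
          rw [single_mul_single, one_mul, pow_succ']
        rw [Finset.sum_congr rfl h3]
        obtain ⟨m, rfl⟩ : ∃ m, q = m + 1 := ⟨q - 1, by have := hq.pos; omega⟩
        rw [Finset.sum_range_succ, hhq]
        change _ = ∑ i ∈ Finset.range (m + 1), single (h ^ i) (1 : K)
        rw [Finset.sum_range_succ', pow_zero]
      rw [h1, mul_assoc, h2, ih]
  have hNN : N * N = (q : MonoidAlgebra K G) * N := by
    conv_lhs => rw [show N = ∑ i ∈ Finset.range q, single (h ^ i) (1 : K) from rfl]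
    rw [Finset.sum_mul, Finset.sum_congr rfl (fun i _ => hshift i)]
    simp
  have hxx : x * x = (q : MonoidAlgebra K G) * x := by
    have hc : N * (q : MonoidAlgebra K G) = (q : MonoidAlgebra K G) * N :=
      (Nat.cast_commute q N).symm
    change ((q : MonoidAlgebra K G) - N) * ((q : MonoidAlgebra K G) - N)
      = (q : MonoidAlgebra K G) * ((q : MonoidAlgebra K G) - N)
    rw [sub_mul, mul_sub, mul_sub, hNN, hc, sub_self, sub_zero]
  have hpoly : (Polynomial.X ^ 2 - Polynomial.C (q : K) * Polynomial.X : K[X]) ≠ 0 := by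
    intro h0
    have := congrArg (fun p : K[X] => p.coeff 2) h0
    simp at this
  have haev : aeval x (Polynomial.X ^ 2 - Polynomial.C (q : K) * Polynomial.X : K[X]) = 0 := by
    rw [map_sub, map_mul, map_pow, aeval_X, aeval_C, pow_two, hxx, map_natCast, sub_self]
  obtain ⟨n, hn⟩ := algebraic_nilpotent K G hJ x hx _ hpoly haev
  have hpow : ∀ n : ℕ, x ^ (n + 1) = ((q : MonoidAlgebra K G)) ^ n * x := by
    intro n
    induction n with
    | zero => rw [zero_add, pow_one, pow_zero, one_mul]
    | succ n ih => rw [pow_succ, ih, mul_assoc, hxx, ← mul_assoc, ← pow_succ]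
  have hx0 : x ^ (n + 1) = 0 := by rw [pow_succ, hn, zero_mul]
  rw [hpow] at hx0
  have hcoef : (((q : MonoidAlgebra K G)) ^ n * x) = ((q : K) ^ n) • x := by
    rw [Algebra.smul_def, map_pow, map_natCast]
  rw [hcoef] at hx0
  have hx00 : x = 0 := by
    rcases smul_eq_zero.1 hx0 with h1 | h1
    · exact absurd h1 (pow_ne_zero _ hqK)
    · exact h1
  -- the coefficient of `x` at `h` is `-1`
  have hh1 : h ≠ 1 := by
    intro h1
    rw [h1, orderOf_one] at ho
    exact hq.one_lt.ne ho
  have hc : x.coeff h = -1 := by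
    rw [hxsum, MonoidAlgebra.coeff_neg, Finsupp.neg_apply, MonoidAlgebra.coeff_sum,
      Finsupp.finsetSum_apply,
      Finset.sum_eq_single 1]
    · rw [pow_one, MonoidAlgebra.of_apply, MonoidAlgebra.coeff_sub, Finsupp.sub_apply,
        MonoidAlgebra.coeff_single,
        Finsupp.single_eq_same, MonoidAlgebra.one_def, MonoidAlgebra.coeff_single,
        Finsupp.single_apply, if_neg (Ne.symm hh1),
        sub_zero]
    · intro i hi hi1
      rw [MonoidAlgebra.of_apply, MonoidAlgebra.coeff_sub, Finsupp.sub_apply,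
        MonoidAlgebra.coeff_single,
        Finsupp.single_apply, MonoidAlgebra.one_def, MonoidAlgebra.coeff_single,
        Finsupp.single_apply, if_neg (Ne.symm hh1),
        sub_zero, if_neg]
      intro h2
      apply hi1
      have h3 : h ^ i = h ^ 1 := by rw [h2, pow_one]
      have h4 := pow_injOn_Iio_orderOf (x := h) (by
        rw [ho]
        exact Finset.mem_range.1 hi) (by
        rw [ho]
        exact hq.one_lt) h3
      exact h4
    · intro h1
      exact absurd (Finset.mem_range.2 hq.one_lt) h1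
  rw [hx00] at hc
  simp at hc

theorem forward (K : Type) [Field K] (G : Type) [Group G] [Nontrivial G]
    (hJ : Aug K G ≤ Ideal.jacobson ⊥)
    (hlf : ∀ S : Finset G, Finite (Subgroup.closure (S : Set G))) :
    ∃ p : ℕ, p.Prime ∧ CharP K p ∧ IsPGroup p G ∧ ∀ H : Subgroup G, H.FG → Finite H := by
  classical
  have hfo : ∀ g : G, 0 < orderOf g := by
    intro g
    have h1 := hlf {g}
    have h2 : Finite (Subgroup.zpowers g) := by
      rw [Subgroup.zpowers_eq_closure]
      simpa using h1
    exact Nat.pos_of_ne_zero (fun h => by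
      have h3 : (Subgroup.zpowers g : Set G).Finite := Set.toFinite _
      exact (orderOf_pos_iff.2 (finite_zpowers.1 h3)).ne' h)
  -- primes dividing orders vanish in `K`
  have hpr : ∀ (g : G) (q : ℕ), q.Prime → q ∣ orderOf g → (q : K) = 0 := by
    intro g q hq hdvd
    refine prime_order K G hJ (g ^ (orderOf g / q)) q hq ?_
    exact orderOf_pow_orderOf_div (hfo g).ne' hdvd
  obtain ⟨g, hg⟩ := exists_ne (1 : G)
  have hg1 : orderOf g ≠ 1 := fun h => hg (orderOf_eq_one_iff.1 h)
  obtain ⟨p, hp, hpd⟩ := Nat.exists_prime_and_dvd hg1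
  have hpK := hpr g p hp hpd
  obtain ⟨c, hc⟩ := CharP.exists K
  have hcp : c = p := by
    have h1 := (CharP.cast_eq_zero_iff K c p).1 hpK
    rcases (Nat.dvd_prime hp).1 h1 with h2 | h2
    · exact absurd h2 (CharP.char_ne_one K c)
    · exact h2
  subst hcp
  refine ⟨c, hp, hc, ?_, ?_⟩
  · have hfact : Fact c.Prime := ⟨hp⟩
    rw [IsPGroup.iff_orderOf]
    intro k
    refine ⟨(orderOf k).primeFactorsList.length, ?_⟩
    apply Nat.eq_prime_pow_of_unique_prime_dvd (hfo k).ne'
    intro q hq hqd
    have h1 := hpr k q hq hqd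
    have h2 := (CharP.cast_eq_zero_iff K c q).1 h1
    exact ((Nat.prime_dvd_prime_iff_eq hp hq).1 h2).symm
  · intro H hH
    obtain ⟨S, rfl⟩ := hH
    exact hlf S

theorem prod_locally_finite (A B : Type) [Group A] [Group B]
    (hA : ∀ S : Finset A, Finite (Subgroup.closure (S : Set A)))
    (hB : ∀ S : Finset B, Finite (Subgroup.closure (S : Set B))) (S : Finset (A × B)) :
    Finite (Subgroup.closure (S : Set (A × B))) := by
  classical
  have h1 := hA (S.image Prod.fst)
  have h2 := hB (S.image Prod.snd)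
  have hle : Subgroup.closure (S : Set (A × B)) ≤
      (Subgroup.closure ((S.image Prod.fst : Finset A) : Set A)).prod
        (Subgroup.closure ((S.image Prod.snd : Finset B) : Set B)) := by
    rw [Subgroup.closure_le]
    intro g hg
    exact ⟨Subgroup.subset_closure (Finset.mem_coe.2 (Finset.mem_image.2 ⟨g, hg, rfl⟩)),
      Subgroup.subset_closure (Finset.mem_coe.2 (Finset.mem_image.2 ⟨g, hg, rfl⟩))⟩
  have hfin : Finite ((Subgroup.closure ((S.image Prod.fst : Finset A) : Set A)).prod
        (Subgroup.closure ((S.image Prod.snd : Finset B) : Set B))) :=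
    Finite.of_equiv _ (Subgroup.prodEquiv _ _).symm.toEquiv
  exact Finite.of_injective (Subgroup.inclusion hle) (Subgroup.inclusion_injective hle)

end Pool.Agent.Helper826.Kap
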