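import Pool.Agent.Helper826.Kap.Char

/-!
Named definitions for the final statements.
-/

set_option autoImplicit false

namespace Pool.Agent.Helper826.Kap

/-- The augmentation ideal of the group algebra `K[G]`, generated by the elements `g - 1`. -/
noncomputable def AugIdeal (K : Type) [Field K] (G : Type) [Group G] :
    Ideal (MonoidAlgebra K G) :=
  Ideal.span (Set.range (fun g : G => MonoidAlgebra.of K G g - 1))

/-- Every finitely generated subgroup of `G` is finite. -/
def LocFin (G : Type) [Group G] : Prop :=
  ∀ S : Finset G, Finite (Subgroup.closure (S : Set G))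

/-- The augmentation ideal of `K[G]` is nil. -/
def NilAug (K : Type) [Field K] (G : Type) [Group G] : Prop :=
  ∀ x ∈ AugIdeal K G, IsNilpotent x

/-- The Jacobson radical of `K[G]` (the intersection of the maximal left ideals) is the
augmentation ideal. -/
def RadicalIsAug (K : Type) [Field K] (G : Type) [Group G] : Prop :=
  Ideal.jacobson (⊥ : Ideal (MonoidAlgebra K G)) = AugIdeal K G

end Pool.Agent.Helper826.Kap
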