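import Mathlib

/-!
Commuting subgroups and the Jacobson radical of a group algebra. The lemmas of this file are
copied from helper753's solution of MP_2e8808_al.
-/

set_option autoImplicit false

namespace Pool.Agent.Helper826.Kap

open Polynomial

theorem exists_functional {k R : Type} [Field k] [Ring R] [Algebra k R] (W : R)
    (hW : ∀ p : k[X], p ≠ 0 → aeval W p ≠ 0) :
    ∃ φ : R →+ FractionRing k[X], φ 1 = 1 ∧
      ∀ (p : k[X]) (r : R), φ (aeval W p * r) = algebraMap k[X] _ p * φ r := by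
  let _ : Module k[X] R := Module.compHom R (aeval W : k[X] →ₐ[k] R).toRingHom
  have hsmul : ∀ (p : k[X]) (r : R), p • r = aeval W p * r := fun p r => rfl
  let S := nonZeroDivisors k[X]
  let M' := LocalizedModule S R
  let v : M' := LocalizedModule.mkLinearMap S R 1
  have hv : v ≠ 0 := by
    intro h
    have := (IsLocalizedModule.eq_zero_iff S (LocalizedModule.mkLinearMap S R)).mp h
    obtain ⟨c, hc⟩ := this
    have h2 : aeval W (c : k[X]) * (1 : R) = 0 := hc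
    rw [mul_one] at h2
    exact hW c (nonZeroDivisors.coe_ne_zero c) h2
  obtain ⟨g, hg⟩ := LinearMap.exists_leftInverse_of_injective
    (LinearMap.toSpanSingleton (FractionRing k[X]) M' v) (LinearMap.ker_toSpanSingleton _ hv)
  have hgv : g v = 1 := by
    have := congrArg (fun f => f 1) hg
    simpa using this
  refine ⟨(g.toAddMonoidHom).comp (LocalizedModule.mkLinearMap S R).toAddMonoidHom, hgv, ?_⟩
  intro p r
  change g (LocalizedModule.mkLinearMap S R (aeval W p * r)) = _ * g (LocalizedModule.mkLinearMap S R r)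
  have h1 : aeval W p * r = p • r := by rw [hsmul]
  rw [h1, map_smul, ← algebraMap_smul (FractionRing k[X]) p, map_smul, smul_eq_mul]

theorem no_right_inverse {k : Type} [Field k] {G : Type} [Group G] (H₁ H₂ : Subgroup G)
    (hcomm : ∀ g ∈ H₁, ∀ h ∈ H₂, g * h = h * g) (hdisj : ∀ g, g ∈ H₁ → g ∈ H₂ → g = 1)
    (X₁ X₂ : MonoidAlgebra k G)
    (hX₁ : X₁ ∈ AddSubmonoid.closure {z | ∃ g ∈ H₁, ∃ r, z = MonoidAlgebra.single g r})
    (hX₂ : X₂ ∈ AddSubmonoid.closure {z | ∃ g ∈ H₂, ∃ r, z = MonoidAlgebra.single g r})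
    (t₁ : ∀ p : k[X], p ≠ 0 → aeval X₁ p ≠ 0)
    (t₂ : ∀ p : k[X], p ≠ 0 → aeval X₂ p ≠ 0)
    (z : MonoidAlgebra k G) : (X₁ - X₂) * z ≠ 1 := by
  classical
  obtain ⟨φ, hφ1, hφ⟩ := exists_functional X₁ t₁
  obtain ⟨ψ, hψ1, hψ⟩ := exists_functional X₂ t₂
  set K := FractionRing k[X]
  set t : K := algebraMap k[X] K X with ht
  have hφc : ∀ (g : G) (r : k), φ (MonoidAlgebra.single g r) =
      algebraMap k K r * φ (MonoidAlgebra.single g 1) := by
    intro g r
    have := hφ (C r) (MonoidAlgebra.single g 1)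
    rw [aeval_C] at this
    rw [MonoidAlgebra.coe_algebraMap] at this
    simp at this
    rw [this]
    rfl
  have hψc : ∀ (g : G) (r : k), ψ (MonoidAlgebra.single g r) =
      algebraMap k K r * ψ (MonoidAlgebra.single g 1) := by
    intro g r
    have := hψ (C r) (MonoidAlgebra.single g 1)
    rw [aeval_C] at this
    rw [MonoidAlgebra.coe_algebraMap] at this
    simp at this
    rw [this]
    rfl
  -- the function on G
  let ι : H₁ × H₂ → G := fun p => p.1 * p.2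
  have hι : Function.Injective ι := by
    rintro ⟨⟨g, hg⟩, ⟨h, hh⟩⟩ ⟨⟨g', hg'⟩, ⟨h', hh'⟩⟩ heq
    simp only [ι] at heq
    have h3 : g'⁻¹ * g = h' * h⁻¹ := by
      rw [inv_mul_eq_iff_eq_mul, ← mul_assoc, eq_mul_inv_iff_mul_eq]; exact heq
    have h4 : g'⁻¹ * g = 1 := hdisj _ (H₁.mul_mem (H₁.inv_mem hg') hg)
      (h3 ▸ H₂.mul_mem hh' (H₂.inv_mem hh))
    have h5 : h' * h⁻¹ = 1 := h3 ▸ h4
    have e1 : g = g' := (inv_mul_eq_one.mp h4).symm
    have e2 : h = h' := (mul_inv_eq_one.mp h5).symm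
    subst e1 e2
    rfl
  let θ₀ : G → K := Function.extend ι
    (fun p => φ (MonoidAlgebra.single (p.1 : G) 1) * ψ (MonoidAlgebra.single (p.2 : G) 1)) 0
  have hθ₀ : ∀ g ∈ H₁, ∀ h ∈ H₂, θ₀ (g * h) =
      φ (MonoidAlgebra.single g 1) * ψ (MonoidAlgebra.single h 1) := by
    intro g hg h hh
    exact hι.extend_apply _ _ (⟨g, hg⟩, ⟨h, hh⟩)
  have hθ₀' : ∀ g, (¬ ∃ a, ι a = g) → θ₀ g = 0 := by
    intro g hg
    exact Function.extend_apply' _ _ _ hg
  let θ : MonoidAlgebra k G →+ K := MonoidAlgebra.liftNC (algebraMap k K : k →+ K) θ₀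
  have hθ : ∀ g r, θ (MonoidAlgebra.single g r) = algebraMap k K r * θ₀ g := by
    intro g r
    exact MonoidAlgebra.liftNC_single _ _ _ _
  have c1 : ∀ W ∈ AddSubmonoid.closure {z | ∃ g ∈ H₁, ∃ r : k, z = MonoidAlgebra.single g r},
      ∀ g ∈ H₁, ∀ h ∈ H₂, ∀ r : k, θ (W * MonoidAlgebra.single (g * h) r) =
        algebraMap k K r * (φ (W * MonoidAlgebra.single g 1) * ψ (MonoidAlgebra.single h 1)) := by
    intro W hW g hg h hh r
    induction hW using AddSubmonoid.closure_induction with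
    | mem x hx =>
      obtain ⟨g', hg', r', rfl⟩ := hx
      rw [MonoidAlgebra.single_mul_single, MonoidAlgebra.single_mul_single, ← mul_assoc, hθ,
        hθ₀ _ (H₁.mul_mem hg' hg) _ hh, mul_one, hφc (g' * g) r', map_mul]
      ring
    | zero => simp
    | add x y _ _ hx hy => rw [add_mul, map_add, hx, hy, add_mul, map_add]; ring
  have c2 : ∀ W ∈ AddSubmonoid.closure {z | ∃ g ∈ H₂, ∃ r : k, z = MonoidAlgebra.single g r},
      ∀ g ∈ H₁, ∀ h ∈ H₂, ∀ r : k, θ (W * MonoidAlgebra.single (g * h) r) =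
        algebraMap k K r * (φ (MonoidAlgebra.single g 1) * ψ (W * MonoidAlgebra.single h 1)) := by
    intro W hW g hg h hh r
    induction hW using AddSubmonoid.closure_induction with
    | mem x hx =>
      obtain ⟨h', hh', r', rfl⟩ := hx
      rw [MonoidAlgebra.single_mul_single, MonoidAlgebra.single_mul_single, ← mul_assoc,
        ← hcomm g hg h' hh', mul_assoc, hθ,
        hθ₀ _ hg _ (H₂.mul_mem hh' hh), mul_one, hψc (h' * h) r', map_mul]
      ring
    | zero => simp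
    | add x y _ _ hx hy => rw [add_mul, map_add, hx, hy, add_mul, map_add]; ring
  have c3 : ∀ W ∈ AddSubmonoid.closure {z | ∃ g ∈ H₁, ∃ r : k, z = MonoidAlgebra.single g r},
      ∀ x, (¬ ∃ a, ι a = x) → ∀ r : k, θ (W * MonoidAlgebra.single x r) = 0 := by
    intro W hW x hx r
    induction hW using AddSubmonoid.closure_induction with
    | mem y hy =>
      obtain ⟨g', hg', r', rfl⟩ := hy
      rw [MonoidAlgebra.single_mul_single, hθ, hθ₀', mul_zero]
      rintro ⟨⟨⟨g, hg⟩, ⟨h, hh⟩⟩, hgh⟩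
      apply hx
      refine ⟨⟨⟨g'⁻¹ * g, H₁.mul_mem (H₁.inv_mem hg') hg⟩, ⟨h, hh⟩⟩, ?_⟩
      simp only [ι] at hgh ⊢
      rw [mul_assoc, hgh, inv_mul_cancel_left]
    | zero => simp
    | add x y _ _ hx hy => rw [add_mul, map_add, hx, hy, add_zero]
  have c4 : ∀ W ∈ AddSubmonoid.closure {z | ∃ g ∈ H₂, ∃ r : k, z = MonoidAlgebra.single g r},
      ∀ x, (¬ ∃ a, ι a = x) → ∀ r : k, θ (W * MonoidAlgebra.single x r) = 0 := by
    intro W hW x hx r
    induction hW using AddSubmonoid.closure_induction with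
    | mem y hy =>
      obtain ⟨h', hh', r', rfl⟩ := hy
      rw [MonoidAlgebra.single_mul_single, hθ, hθ₀', mul_zero]
      rintro ⟨⟨⟨g, hg⟩, ⟨h, hh⟩⟩, hgh⟩
      apply hx
      refine ⟨⟨⟨g, hg⟩, ⟨h'⁻¹ * h, H₂.mul_mem (H₂.inv_mem hh') hh⟩⟩, ?_⟩
      simp only [ι] at hgh ⊢
      rw [← mul_assoc, hcomm g hg _ (H₂.inv_mem hh'), mul_assoc, hgh, inv_mul_cancel_left]
    | zero => simp
    | add x y _ _ hx hy => rw [add_mul, map_add, hx, hy, add_zero]
  have main : ∀ z, θ ((X₁ - X₂) * z) = 0 := by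
    intro z
    induction z using MonoidAlgebra.induction_linear with
    | zero => simp
    | add x y hx hy => rw [mul_add, map_add, hx, hy, add_zero]
    | single x r =>
      rw [sub_mul, map_sub]
      by_cases hx : ∃ a, ι a = x
      · obtain ⟨⟨⟨g, hg⟩, ⟨h, hh⟩⟩, rfl⟩ := hx
        simp only [ι]
        rw [c1 X₁ hX₁ g hg h hh r, c2 X₂ hX₂ g hg h hh r]
        have e1 := hφ X (MonoidAlgebra.single g 1)
        have e2 := hψ X (MonoidAlgebra.single h 1)
        rw [aeval_X] at e1 e2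
        rw [e1, e2]
        ring
      · rw [c3 X₁ hX₁ x hx r, c4 X₂ hX₂ x hx r, sub_zero]
  intro hz
  have h0 := main z
  rw [hz] at h0
  have h1 : θ 1 = 1 := by
    rw [MonoidAlgebra.one_def, hθ]
    have := hθ₀ 1 H₁.one_mem 1 H₂.one_mem
    rw [mul_one] at this
    rw [this, ← MonoidAlgebra.one_def, hφ1, hψ1]
    simp
  rw [h1] at h0
  exact one_ne_zero h0

theorem transcendental_of_radical {k : Type} [Field k] {R : Type} [Ring R] [Algebra k R]
    (I : Ideal R) (hI : ∀ x ∈ I, ∀ r : R, x * r ∈ I) (hU : ∀ x ∈ I, IsUnit (1 + x)) (x : R)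
    (hx : x ∈ I) (hn : ∀ n : ℕ, x ^ n ≠ 0) (p : k[X]) (hp : p ≠ 0) : aeval x p ≠ 0 := by
  intro h0
  obtain ⟨q, hq, hdvd⟩ := exists_eq_pow_rootMultiplicity_mul_and_not_dvd p hp 0
  set n := rootMultiplicity 0 p
  rw [map_zero, sub_zero] at hq hdvd
  rw [X_dvd_iff] at hdvd
  set c := q.coeff 0 with hc
  have hq2 := divX_mul_X_add q
  have hu : IsUnit (aeval x q) := by
    have h1 : aeval x q = algebraMap k R c * (1 + x * (algebraMap k R c⁻¹ * aeval x q.divX)) := by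
      conv_lhs => rw [← hq2]
      rw [map_add, map_mul, aeval_X, aeval_C, mul_add, mul_one, add_comm, ← hc]
      congr 1
      rw [← mul_assoc, (Algebra.commutes c x), mul_assoc, ← mul_assoc (algebraMap k R c),
        ← map_mul, mul_inv_cancel₀ hdvd, map_one, one_mul]
      have h2 : aeval x (q.divX * X) = aeval x (X * q.divX) := by rw [mul_comm]
      rwa [map_mul, map_mul, aeval_X] at h2
    rw [h1]
    exact ((isUnit_iff_ne_zero.mpr hdvd).map (algebraMap k R)).mul (hU _ (hI x hx _))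
  rw [hq, map_mul, map_pow, aeval_X] at h0
  exact hn n ((hu.mul_left_eq_zero).mp h0)


theorem not_radical {k : Type} [Field k] {G : Type} [Group G] (H₁ H₂ : Subgroup G)
    (hcomm : ∀ g ∈ H₁, ∀ h ∈ H₂, g * h = h * g) (hdisj : ∀ g, g ∈ H₁ → g ∈ H₂ → g = 1)
    (I : Ideal (MonoidAlgebra k G)) (hI : ∀ x ∈ I, ∀ r : MonoidAlgebra k G, x * r ∈ I)
    (hJ : I ≤ Ideal.jacobson ⊥)
    (X₁ X₂ : MonoidAlgebra k G)
    (hX₁ : X₁ ∈ AddSubmonoid.closure {z | ∃ g ∈ H₁, ∃ r, z = MonoidAlgebra.single g r})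
    (hX₂ : X₂ ∈ AddSubmonoid.closure {z | ∃ g ∈ H₂, ∃ r, z = MonoidAlgebra.single g r})
    (h₁ : X₁ ∈ I) (h₂ : X₂ ∈ I) (n₁ : ∀ n : ℕ, X₁ ^ n ≠ 0) (n₂ : ∀ n : ℕ, X₂ ^ n ≠ 0) : False := by
  have hleft : ∀ x ∈ I, ∃ z, z * (1 + x) = 1 := by
    intro x hx
    obtain ⟨z, hz⟩ := Ideal.mem_jacobson_iff.mp (hJ hx) 1
    refine ⟨z, ?_⟩
    rw [Ideal.mem_bot, sub_eq_zero, mul_one] at hz
    rw [mul_add, mul_one, add_comm]
    exact hz
  have hU : ∀ x ∈ I, IsUnit (1 + x) := by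
    intro x hx
    obtain ⟨z, hz⟩ := hleft x hx
    have h3 : z = 1 + (-(z * x)) := by
      rw [mul_add, mul_one] at hz
      rw [← hz]; abel
    obtain ⟨w, hw⟩ := hleft (-(z * x)) (I.neg_mem (I.mul_mem_left z hx))
    rw [← h3] at hw
    have h4 : w = 1 + x := by
      calc w = w * (z * (1 + x)) := by rw [hz, mul_one]
        _ = 1 + x := by rw [← mul_assoc, hw, one_mul]
    rw [h4] at hw
    exact ⟨⟨1 + x, z, hw, hz⟩, rfl⟩
  have t₁ := transcendental_of_radical (k := k) I hI hU X₁ h₁ n₁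
  have t₂' := transcendental_of_radical (k := k) I hI hU X₂ h₂ n₂
  have t₂ : ∀ p : k[X], p ≠ 0 → aeval (1 + X₂) p ≠ 0 := by
    intro p hp
    have h5 : taylor 1 p ≠ 0 := by
      intro h
      exact hp (taylor_injective (1 : k) (by rw [h, map_zero]))
    have h6 := t₂' _ h5
    rw [taylor_apply, aeval_comp] at h6
    simpa [add_comm] using h6
  have hX₂' : 1 + X₂ ∈ AddSubmonoid.closure {z | ∃ g ∈ H₂, ∃ r : k, z = MonoidAlgebra.single g r} :=
    AddSubmonoid.add_mem _ (AddSubmonoid.subset_closure ⟨1, H₂.one_mem, 1, rfl⟩) hX₂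
  obtain ⟨u, hu⟩ := hU (X₂ - X₁) (I.sub_mem h₂ h₁)
  apply no_right_inverse H₁ H₂ hcomm hdisj X₁ (1 + X₂) hX₁ hX₂' t₁ t₂ (-(↑(u⁻¹) : MonoidAlgebra k G))
  have : X₁ - (1 + X₂) = - (u : MonoidAlgebra k G) := by rw [hu]; abel
  rw [this, neg_mul_neg, Units.mul_inv]


end Pool.Agent.Helper826.Kap
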