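import Mathlib

/-!
The augmentation ideal of the group algebra of a wreath product is not nil unless the top group
is locally finite.
-/

set_option autoImplicit false

namespace Pool.Agent.Helper826.Kap

open MonoidAlgebra

/-- The restricted wreath product of `D` by `Q`: the elements of the (unrestricted) regular wreath
product `D ≀ᵣ Q` whose function `Q → D` has finite support. -/
def Wr (D Q : Type) [Group D] [Group Q] : Subgroup (RegularWreathProduct D Q) where
  carrier := {x | (Function.mulSupport x.left).Finite}
  one_mem' := by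
    change (Function.mulSupport (1 : Q → D)).Finite
    rw [Function.mulSupport_one]
    exact Set.finite_empty
  mul_mem' := by
    intro a b ha hb
    change (Function.mulSupport (a.left * fun x => b.left (a.right⁻¹ * x))).Finite
    refine (ha.union ((hb.image (fun y => a.right * y)))).subset ?_
    intro x hx
    by_contra hcon
    rw [Set.mem_union, not_or] at hcon
    apply hx
    have h1 : a.left x = 1 := by
      by_contra h
      exact hcon.1 h
    have h2 : b.left (a.right⁻¹ * x) = 1 := by
      by_contra h
      exact hcon.2 ⟨a.right⁻¹ * x, h, by simp⟩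
    change a.left x * b.left (a.right⁻¹ * x) = 1
    rw [h1, h2, mul_one]
  inv_mem' := by
    intro a ha
    change (Function.mulSupport (fun k => a.left⁻¹ (a.right * k))).Finite
    refine (ha.image (fun y => a.right⁻¹ * y)).subset ?_
    intro x hx
    refine ⟨a.right * x, ?_, by simp⟩
    intro h
    apply hx
    change (a.left (a.right * x))⁻¹ = 1
    rw [h, inv_one]

variable {D Q : Type} [Group D] [Group Q]

/-- The top element `s`. -/
def top (s : Q) : Wr D Q := ⟨⟨1, s⟩, by
  change (Function.mulSupport (1 : Q → D)).Finite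
  rw [Function.mulSupport_one]
  exact Set.finite_empty⟩

open Classical in
/-- The element `a` at position `1` of the base. -/
noncomputable def base (a : D) : Wr D Q := ⟨⟨Pi.mulSingle 1 a, 1⟩, by
  change (Function.mulSupport (Pi.mulSingle (1 : Q) a)).Finite
  exact (Set.finite_singleton (1 : Q)).subset (Pi.mulSupport_mulSingle_subset)⟩

/-- Positions reachable in at most `n` steps. -/
def B (S : Finset Q) : ℕ → Set Q
  | 0 => {1}
  | n + 1 => B S n ∪ {q | ∃ s ∈ S, ∃ r ∈ B S n, q = r * s}

/-- The element of the augmentation ideal. -/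
noncomputable def X (K : Type) [Field K] (S : Finset Q) (a : D) : MonoidAlgebra K (Wr D Q) :=
  ∑ s ∈ S, (single (base a * top s) (1 : K) - single (top s) 1)

theorem B_mono (S : Finset Q) : Monotone (B S) :=
  monotone_nat_of_le_succ (fun _ => Set.subset_union_left)

theorem coeff_step (K : Type) [Field K] (S : Finset Q) (a : D) (n : ℕ) (g : Wr D Q) :
    (X K S a ^ (n + 1)).coeff g = ∑ s ∈ S, ((X K S a ^ n).coeff (g * (base a * top s)⁻¹)
      - (X K S a ^ n).coeff (g * (top s)⁻¹)) := by
  have h1 : X K S a ^ (n + 1) = ∑ s ∈ S, ((X K S a ^ n) * single (base a * top s) (1 : K)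
      - (X K S a ^ n) * single (top s) 1) := by
    rw [pow_succ]
    conv_lhs => rw [X]
    rw [Finset.mul_sum]
    exact Finset.sum_congr rfl (fun s _ => mul_sub _ _ _)
  rw [h1, coeff_sum, Finsupp.finsetSum_apply]
  refine Finset.sum_congr rfl (fun s _ => ?_)
  rw [coeff_sub, Finsupp.sub_apply, coeff_mul_single_apply, coeff_mul_single_apply, mul_one,
    mul_one]

theorem left_mul (g h : Wr D Q) (x : Q) :
    (g * h).1.left x = g.1.left x * h.1.left (g.1.right⁻¹ * x) := rfl

theorem right_mul (g h : Wr D Q) : (g * h).1.right = g.1.right * h.1.right := rfl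

theorem left_top (s x : Q) : (top s : Wr D Q).1.left x = 1 := rfl

theorem right_top (s : Q) : (top s : Wr D Q).1.right = s := rfl

theorem left_base_one (a : D) : (base a : Wr D Q).1.left 1 = a := by
  classical
  exact Pi.mulSingle_eq_same (M := fun _ : Q => D) 1 a

theorem left_base_ne (a : D) {x : Q} (hx : x ≠ 1) : (base a : Wr D Q).1.left x = 1 := by
  classical
  exact Pi.mulSingle_eq_of_ne (M := fun _ : Q => D) hx a

theorem right_base (a : D) : (base a : Wr D Q).1.right = 1 := rfl

/-- left coordinate of `g * top s` -/
theorem left_mul_top (g : Wr D Q) (s x : Q) : (g * top s).1.left x = g.1.left x := by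
  rw [left_mul, left_top, mul_one]

theorem right_mul_top (g : Wr D Q) (s : Q) : (g * top s).1.right = g.1.right * s := rfl

theorem left_mul_base_top (g : Wr D Q) (a : D) (s : Q) {x : Q} (hx : x ≠ g.1.right) :
    (g * (base a * top s)).1.left x = g.1.left x := by
  rw [← mul_assoc, left_mul_top, left_mul, left_base_ne, mul_one]
  intro h
  apply hx
  exact (inv_mul_eq_one.1 h).symm

theorem left_mul_base_top_self (g : Wr D Q) (a : D) (s : Q) :
    (g * (base a * top s)).1.left g.1.right = g.1.left g.1.right * a := by
  rw [← mul_assoc, left_mul_top, left_mul, inv_mul_cancel, left_base_one]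

theorem right_mul_base_top (g : Wr D Q) (a : D) (s : Q) :
    (g * (base a * top s)).1.right = g.1.right * s := by
  rw [← mul_assoc, right_mul_top, right_mul, right_base, mul_one]

theorem inv_supp (K : Type) [Field K] (S : Finset Q) (a : D) (n : ℕ) :
    ∀ g : Wr D Q, (X K S a ^ n).coeff g ≠ 0 →
      g.1.right ∈ B S n ∧ ∀ x, g.1.left x ≠ 1 → ∃ m < n, x ∈ B S m := by
  classical
  induction n with
  | zero =>
    intro g hg
    rw [pow_zero, one_def, coeff_single, Finsupp.single_apply] at hg
    split_ifs at hg with h
    · subst h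
      exact ⟨rfl, fun x hx => absurd rfl hx⟩
    · exact absurd rfl hg
  | succ n ih =>
    intro g hg
    rw [coeff_step] at hg
    obtain ⟨s, hs, hne⟩ := Finset.exists_ne_zero_of_sum_ne_zero hg
    have hor : (X K S a ^ n).coeff (g * (base a * top s)⁻¹) ≠ 0 ∨
        (X K S a ^ n).coeff (g * (top s)⁻¹) ≠ 0 := by
      by_contra h
      push Not at h
      rw [h.1, h.2, sub_zero] at hne
      exact hne rfl
    rcases hor with h | h
    · obtain ⟨h1, h2⟩ := ih _ h
      set g' := g * (base a * top s)⁻¹ with hg'
      have hgg : g = g' * (base a * top s) := by rw [hg', inv_mul_cancel_right]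
      refine ⟨?_, fun x hx => ?_⟩
      · rw [hgg, right_mul_base_top]
        exact Or.inr ⟨s, hs, _, h1, rfl⟩
      · by_cases hxr : x = g'.1.right
        · exact ⟨n, Nat.lt_succ_self n, hxr ▸ h1⟩
        · rw [hgg, left_mul_base_top _ _ _ hxr] at hx
          obtain ⟨m, hm, hxm⟩ := h2 x hx
          exact ⟨m, by omega, hxm⟩
    · obtain ⟨h1, h2⟩ := ih _ h
      set g' := g * (top s)⁻¹ with hg'
      have hgg : g = g' * top s := by rw [hg', inv_mul_cancel_right]
      refine ⟨?_, fun x hx => ?_⟩
      · rw [hgg, right_mul_top]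
        exact Or.inr ⟨s, hs, _, h1, rfl⟩
      · rw [hgg, left_mul_top] at hx
        obtain ⟨m, hm, hxm⟩ := h2 x hx
        exact ⟨m, by omega, hxm⟩

theorem key (K : Type) [Field K] (S : Finset Q) (a : D) (ha : a ≠ 1) (n : ℕ) :
    ∀ q ∈ B S n, (∀ m < n, q ∉ B S m) →
      ∃ γ : Wr D Q, (X K S a ^ n).coeff γ = 1 ∧ γ.1.right = q := by
  classical
  induction n with
  | zero =>
    intro q hq _
    refine ⟨1, ?_, ?_⟩
    · rw [pow_zero, one_def, coeff_single, Finsupp.single_eq_same]
    · exact (Set.mem_singleton_iff.1 hq).symm
  | succ n ih =>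
    intro q hq hqm
    rcases hq with hq | ⟨s, hs, q', hq', rfl⟩
    · exact absurd hq (hqm n (Nat.lt_succ_self n))
    · have hq'm : ∀ m < n, q' ∉ B S m := by
        intro m hm h
        exact hqm (m + 1) (by omega) (Or.inr ⟨s, hs, q', h, rfl⟩)
      obtain ⟨γ', hγ', hr⟩ := ih q' hq' hq'm
      have hγ'0 : (X K S a ^ n).coeff γ' ≠ 0 := by rw [hγ']; exact one_ne_zero
      have hleft : γ'.1.left q' = 1 := by
        by_contra h
        obtain ⟨m, hm, hqq⟩ := (inv_supp K S a n γ' hγ'0).2 q' h
        exact hq'm m hm hqq
      set γ := γ' * (base a * top s) with hγ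
      have hγl : γ.1.left q' = a := by
        rw [hγ, ← hr, left_mul_base_top_self, hr, hleft, one_mul]
      have hγr : γ.1.right = q' * s := by rw [hγ, right_mul_base_top, hr]
      -- elements with a lit lamp at `q'` do not occur
      have hzero : ∀ g : Wr D Q, g.1.left q' ≠ 1 → (X K S a ^ n).coeff g = 0 := by
        intro g hg
        by_contra h
        obtain ⟨m, hm, hqq⟩ := (inv_supp K S a n g h).2 q' hg
        exact hq'm m hm hqq
      refine ⟨γ, ?_, hγr⟩
      rw [coeff_step, Finset.sum_eq_single s]
      · have e1 : γ * (base a * top s)⁻¹ = γ' := by rw [hγ, mul_inv_cancel_right]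
        have e2 : (X K S a ^ n).coeff (γ * (top s)⁻¹) = 0 := by
          apply hzero
          have e3 : (γ * (top s)⁻¹).1.left q' = γ.1.left q' := by
            have := left_mul_top (γ * (top s)⁻¹) s q'
            rw [inv_mul_cancel_right] at this
            exact this.symm
          rw [e3, hγl]
          exact ha
        rw [e1, e2, hγ', sub_zero]
      · intro s' _ hss
        have e2 : (X K S a ^ n).coeff (γ * (top s')⁻¹) = 0 := by
          apply hzero
          have e3 : (γ * (top s')⁻¹).1.left q' = γ.1.left q' := by
            have := left_mul_top (γ * (top s')⁻¹) s' q'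
            rw [inv_mul_cancel_right] at this
            exact this.symm
          rw [e3, hγl]
          exact ha
        have e4 : (X K S a ^ n).coeff (γ * (base a * top s')⁻¹) = 0 := by
          apply hzero
          set g := γ * (base a * top s')⁻¹ with hg
          have hgg : γ = g * (base a * top s') := by rw [hg, inv_mul_cancel_right]
          have hgr : g.1.right * s' = q' * s := by
            rw [← hγr, hgg, right_mul_base_top]
          have hne : q' ≠ g.1.right := by
            intro h
            rw [← h] at hgr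
            exact hss (mul_left_cancel hgr)
          have e5 := left_mul_base_top g a s' hne
          rw [← hgg, hγl] at e5
          rw [← e5]
          exact ha
        rw [e2, e4, sub_zero]
      · intro h
        exact absurd hs h

/-- `X` is in the augmentation ideal. -/
theorem X_mem (K : Type) [Field K] (S : Finset Q) (a : D) :
    X K S a ∈ Ideal.span (Set.range (fun g : Wr D Q => MonoidAlgebra.of K (Wr D Q) g - 1)) := by
  refine Ideal.sum_mem _ (fun s _ => ?_)
  have h1 : single (base a * top s) (1 : K) - single (top s) 1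
      = (MonoidAlgebra.of K (Wr D Q) (base a * top s) - 1)
        - (MonoidAlgebra.of K (Wr D Q) (top s) - 1) := by
    rw [MonoidAlgebra.of_apply, MonoidAlgebra.of_apply]
    abel
  rw [h1]
  exact Ideal.sub_mem _ (Ideal.subset_span ⟨_, rfl⟩) (Ideal.subset_span ⟨_, rfl⟩)

/-- If a symmetric finite set generates an infinite group then there are elements of every
length. -/
theorem exists_length (S : Finset Q) (hS : ∀ s ∈ S, s⁻¹ ∈ S)
    (hinf : ¬ Finite (Subgroup.closure (S : Set Q))) (n : ℕ) :
    ∃ q ∈ B S n, ∀ m < n, q ∉ B S m := by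
  classical
  rcases Nat.eq_zero_or_pos n with rfl | hn
  · exact ⟨1, rfl, fun m hm => absurd hm (Nat.not_lt_zero m)⟩
  · by_contra hcon
    push Not at hcon
    obtain ⟨k, rfl⟩ : ∃ k, n = k + 1 := ⟨n - 1, by omega⟩
    have hstab : B S (k + 1) ⊆ B S k := by
      intro q hq
      obtain ⟨m, hm, hqm⟩ := hcon q hq
      exact B_mono S (by omega) hqm
    have hfin : ∀ m, (B S m).Finite := by
      intro m
      induction m with
      | zero => exact Set.finite_singleton 1
      | succ m ih =>
        refine ih.union ?_
        refine ((ih.prod S.finite_toSet).image (fun p => p.1 * p.2)).subset ?_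
        rintro q ⟨s, hs, r, hr, rfl⟩
        exact ⟨(r, s), ⟨hr, hs⟩, rfl⟩
    apply hinf
    have h1 : ((Subgroup.closure (S : Set Q) : Subgroup Q) : Set Q) ⊆ B S k := by
      intro q hq
      have hq' : q ∈ Subgroup.closure (S : Set Q) := hq
      induction hq' using Subgroup.closure_induction_right with
      | one => exact B_mono S (Nat.zero_le k) rfl
      | mul_right x hx y hy ih => exact hstab (Or.inr ⟨y, hy, x, ih hx, rfl⟩)
      | mul_inv_cancel x hx y hy ih => exact hstab (Or.inr ⟨y⁻¹, hS y hy, x, ih hx, rfl⟩)
    exact ((hfin k).subset h1).to_subtype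

theorem X_pow_ne (K : Type) [Field K] (S : Finset Q) (hS : ∀ s ∈ S, s⁻¹ ∈ S)
    (hinf : ¬ Finite (Subgroup.closure (S : Set Q))) (a : D) (ha : a ≠ 1) (n : ℕ) :
    X K S a ^ n ≠ 0 := by
  obtain ⟨q, hq, hqm⟩ := exists_length S hS hinf n
  obtain ⟨γ, hγ, -⟩ := key K S a ha n q hq hqm
  intro h
  rw [h] at hγ
  simp at hγ

end Pool.Agent.Helper826.Kap
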