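import Pool.Agent.Helper826.Kap.Radical
import Pool.Agent.Helper826.Kap.Wreath

/-!
Groups containing a square `H × H` whose augmentation ideal is the Jacobson radical.
-/

set_option autoImplicit false

namespace Pool.Agent.Helper826.Kap

open MonoidAlgebra Polynomial

/-- The augmentation ideal, as in the frozen statement. -/
noncomputable abbrev Aug (K : Type) [Field K] (G : Type) [Group G] : Ideal (MonoidAlgebra K G) :=
  Ideal.span (Set.range (fun g : G => MonoidAlgebra.of K G g - 1))

theorem aug_right (K : Type) [Field K] (G : Type) [Group G] (x : MonoidAlgebra K G)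
    (hx : x ∈ Aug K G) (r : MonoidAlgebra K G) : x * r ∈ Aug K G := by
  induction hx using Submodule.span_induction with
  | mem y hy =>
    obtain ⟨g, rfl⟩ := hy
    induction r using MonoidAlgebra.induction_linear with
    | zero => simp
    | add a b ha hb => rw [mul_add]; exact Ideal.add_mem _ ha hb
    | single h c =>
      have h1 : (MonoidAlgebra.of K G g - 1) * single h c
          = single 1 c * (MonoidAlgebra.of K G (g * h) - 1)
            - single 1 c * (MonoidAlgebra.of K G h - 1) := by
        rw [MonoidAlgebra.of_apply, MonoidAlgebra.of_apply, MonoidAlgebra.of_apply, sub_mul,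
          mul_sub, mul_sub, one_mul, mul_one, single_mul_single, single_mul_single,
          single_mul_single]
        simp
      rw [h1]
      exact Ideal.sub_mem _ (Ideal.mul_mem_left _ _ (Ideal.subset_span ⟨_, rfl⟩))
        (Ideal.mul_mem_left _ _ (Ideal.subset_span ⟨_, rfl⟩))
  | zero => simp
  | add a b _ _ ha hb => rw [add_mul]; exact Ideal.add_mem _ ha hb
  | smul a y _ hy =>
    rw [smul_eq_mul, mul_assoc]
    exact Ideal.mul_mem_left _ _ hy

/-- The algebra map induced by a group homomorphism. -/
noncomputable abbrev mp (K : Type) [Field K] {H G : Type} [Group H] [Group G] (φ : H →* G) :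
    MonoidAlgebra K H →+* MonoidAlgebra K G := MonoidAlgebra.mapDomainRingHom K φ

theorem mp_single (K : Type) [Field K] {H G : Type} [Group H] [Group G] (φ : H →* G) (h : H)
    (c : K) : mp K φ (single h c) = single (φ h) c := by
  simp [mp]

theorem mp_mem (K : Type) [Field K] {H G : Type} [Group H] [Group G] (φ : H →* G)
    (x : MonoidAlgebra K H) (hx : x ∈ Aug K H) : mp K φ x ∈ Aug K G := by
  have h1 : Aug K H ≤ (Aug K G).comap (mp K φ) := by
    rw [Ideal.span_le]
    rintro _ ⟨h, rfl⟩
    change mp K φ (MonoidAlgebra.of K H h - 1) ∈ Aug K G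
    rw [map_sub, map_one, MonoidAlgebra.of_apply, mp_single]
    exact Ideal.subset_span ⟨φ h, rfl⟩
  exact h1 hx

theorem mp_injective (K : Type) [Field K] {H G : Type} [Group H] [Group G] (φ : H →* G)
    (hφ : Function.Injective φ) : Function.Injective (mp K φ) :=
  MonoidAlgebra.mapDomain_injective hφ

theorem mp_closure (K : Type) [Field K] {H G : Type} [Group H] [Group G] (φ : H →* G)
    (x : MonoidAlgebra K H) : mp K φ x ∈ AddSubmonoid.closure
      {z | ∃ g ∈ φ.range, ∃ r : K, z = MonoidAlgebra.single g r} := by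
  induction x using MonoidAlgebra.induction_linear with
  | zero => rw [map_zero]; exact zero_mem _
  | add a b ha hb => rw [map_add]; exact add_mem ha hb
  | single h c =>
    rw [mp_single]
    exact AddSubmonoid.subset_closure ⟨φ h, ⟨h, rfl⟩, c, rfl⟩

theorem square (K : Type) [Field K] (G : Type) [Group G]
    (hJ : Aug K G ≤ Ideal.jacobson ⊥) (H : Type) [Group H] (φ : H × H →* G)
    (hφ : Function.Injective φ) : ∀ x ∈ Aug K H, IsNilpotent x := by
  intro x hx
  by_contra hnil
  have hn : ∀ n : ℕ, x ^ n ≠ 0 := fun n h => hnil ⟨n, h⟩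
  let φ₁ : H →* G := φ.comp (MonoidHom.inl H H)
  let φ₂ : H →* G := φ.comp (MonoidHom.inr H H)
  have hφ₁ : Function.Injective φ₁ := by
    intro a b hab
    have := hφ hab
    exact (Prod.mk.inj this).1
  have hφ₂ : Function.Injective φ₂ := by
    intro a b hab
    have := hφ hab
    exact (Prod.mk.inj this).2
  refine not_radical (k := K) φ₁.range φ₂.range ?_ ?_ (Aug K G) (aug_right K G) hJ
    (mp K φ₁ x) (mp K φ₂ x) (mp_closure K φ₁ x) (mp_closure K φ₂ x) (mp_mem K φ₁ x hx)
    (mp_mem K φ₂ x hx) ?_ ?_
  · rintro _ ⟨a, rfl⟩ _ ⟨b, rfl⟩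
    change φ (a, 1) * φ (1, b) = φ (1, b) * φ (a, 1)
    rw [← map_mul, ← map_mul]
    simp
  · rintro g ⟨a, rfl⟩ ⟨b, hb⟩
    have h1 : φ (1, b) = φ (a, 1) := hb
    have h2 := (Prod.mk.inj (hφ h1)).1
    change φ (a, 1) = 1
    rw [← h2]
    exact map_one φ
  · intro n h
    rw [← map_pow] at h
    exact hn n (mp_injective K φ₁ hφ₁ (by rw [h, map_zero]))
  · intro n h
    rw [← map_pow] at h
    exact hn n (mp_injective K φ₂ hφ₂ (by rw [h, map_zero]))

theorem wreath_nil (K : Type) [Field K] (D Q : Type) [Group D] [Nontrivial D] [Group Q]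
    (hnil : ∀ x ∈ Aug K (Wr D Q), IsNilpotent x) (S : Finset Q) :
    Finite (Subgroup.closure (S : Set Q)) := by
  classical
  obtain ⟨a, ha⟩ := exists_ne (1 : D)
  by_contra hinf
  let T : Finset Q := S ∪ S.image (fun s => s⁻¹)
  have hT : ∀ s ∈ T, s⁻¹ ∈ T := by
    intro s hs
    rcases Finset.mem_union.1 hs with h | h
    · exact Finset.mem_union_right _ (Finset.mem_image.2 ⟨s, h, rfl⟩)
    · obtain ⟨t, ht, rfl⟩ := Finset.mem_image.1 h
      rw [inv_inv]
      exact Finset.mem_union_left _ ht
  have hinfT : ¬ Finite (Subgroup.closure (T : Set Q)) := by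
    intro h
    apply hinf
    have hle : Subgroup.closure (S : Set Q) ≤ Subgroup.closure (T : Set Q) :=
      Subgroup.closure_mono (by intro s hs; exact Finset.mem_union_left _ hs)
    exact Finite.of_injective (Subgroup.inclusion hle) (Subgroup.inclusion_injective hle)
  obtain ⟨n, hn⟩ := hnil _ (X_mem K T a)
  exact X_pow_ne K T hT hinfT a ha n hn

theorem nil_of_embed (K : Type) [Field K] {H G : Type} [Group H] [Group G] (φ : H →* G)
    (hφ : Function.Injective φ) (hnil : ∀ x ∈ Aug K G, IsNilpotent x) :
    ∀ x ∈ Aug K H, IsNilpotent x := by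
  intro x hx
  obtain ⟨n, hn⟩ := hnil _ (mp_mem K φ x hx)
  refine ⟨n, mp_injective K φ hφ ?_⟩
  rw [map_pow, hn, map_zero]

theorem supp_finite {D Q : Type} [Group D] [Group Q] (g : Wr D Q) :
    (Function.mulSupport g.1.left).Finite := g.2

/-- The restricted wreath product of a locally finite group by a locally finite group is locally
finite. -/
theorem wreath_locally_finite (D Q : Type) [Group D] [Group Q]
    (hD : ∀ S : Finset D, Finite (Subgroup.closure (S : Set D)))
    (hQ : ∀ S : Finset Q, Finite (Subgroup.closure (S : Set Q))) (S : Finset (Wr D Q)) :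
    Finite (Subgroup.closure (S : Set (Wr D Q))) := by
  classical
  let Q0 := Subgroup.closure ((S.image (fun g => g.1.right) : Finset Q) : Set Q)
  have hQ0 : Finite Q0 := hQ _
  let P0 : Finset Q := S.biUnion (fun g => (supp_finite g).toFinset)
  let D0 := Subgroup.closure (((S ×ˢ P0).image (fun p => p.1.1.left p.2) : Finset D) : Set D)
  have hD0 : Finite D0 := hD _
  let T : Set Q := Set.image2 (fun q p => q * p) (Q0 : Set Q) (P0 : Set Q)
  have hT : T.Finite := Set.Finite.image2 _ (Set.toFinite _) P0.finite_toSet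
  have hTmul : ∀ q ∈ Q0, ∀ t, q * t ∈ T → t ∈ T := by
    rintro q hq t ⟨q', hq', p, hp, h⟩
    refine ⟨q⁻¹ * q', mul_mem (inv_mem hq) hq', p, hp, ?_⟩
    have h' : q' * p = q * t := h
    change q⁻¹ * q' * p = t
    rw [mul_assoc, h', inv_mul_cancel_left]
  let W : Subgroup (Wr D Q) :=
    { carrier := {g | g.1.right ∈ Q0 ∧ (∀ x, g.1.left x ∈ D0) ∧ ∀ x, g.1.left x ≠ 1 → x ∈ T}
      one_mem' := ⟨one_mem _, fun _ => one_mem _, fun x hx => absurd rfl hx⟩
      mul_mem' := by
        rintro g h ⟨g1, g2, g3⟩ ⟨h1, h2, h3⟩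
        refine ⟨mul_mem g1 h1, fun x => ?_, fun x hx => ?_⟩
        · rw [left_mul]
          exact mul_mem (g2 _) (h2 _)
        · by_contra hxT
          apply hx
          rw [left_mul]
          have e1 : g.1.left x = 1 := by
            by_contra h
            exact hxT (g3 x h)
          have e2 : h.1.left (g.1.right⁻¹ * x) = 1 := by
            by_contra h
            have h4 := h3 _ h
            apply hxT
            apply hTmul (g.1.right⁻¹) (inv_mem g1) x h4
          rw [e1, e2, mul_one]
      inv_mem' := by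
        rintro g ⟨g1, g2, g3⟩
        refine ⟨inv_mem g1, fun x => ?_, fun x hx => ?_⟩
        · exact inv_mem (g2 _)
        · have h4 : g.1.left (g.1.right * x) ≠ 1 := by
            intro h
            apply hx
            change (g.1.left (g.1.right * x))⁻¹ = 1
            rw [h, inv_one]
          exact hTmul _ g1 x (g3 _ h4) }
  have hle : Subgroup.closure (S : Set (Wr D Q)) ≤ W := by
    rw [Subgroup.closure_le]
    intro g hg
    have hP : ∀ x, g.1.left x ≠ 1 → x ∈ P0 := by
      intro x hx
      refine Finset.mem_biUnion.2 ⟨g, hg, ?_⟩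
      rw [Set.Finite.mem_toFinset]
      exact hx
    refine ⟨Subgroup.subset_closure ?_, fun x => ?_, fun x hx => ?_⟩
    · exact Finset.mem_coe.2 (Finset.mem_image.2 ⟨g, hg, rfl⟩)
    · by_cases hx : g.1.left x = 1
      · rw [hx]
        exact one_mem _
      · apply Subgroup.subset_closure
        exact Finset.mem_coe.2 (Finset.mem_image.2
          ⟨(g, x), Finset.mem_product.2 ⟨hg, hP x hx⟩, rfl⟩)
    · exact ⟨1, one_mem _, x, hP x hx, one_mul x⟩
  have hWfin : (W : Set (Wr D Q)).Finite := by
    have hTf : Finite T := hT.to_subtype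
    let f : W → Q0 × (T → D0) := fun g => (⟨g.1.1.right, g.2.1⟩,
      fun t => ⟨g.1.1.left t, g.2.2.1 t⟩)
    have hf : Function.Injective f := by
      intro g h hgh
      have e1 : g.1.1.right = h.1.1.right := congrArg (fun p => (p.1 : Q)) hgh
      have e2 : ∀ t : T, g.1.1.left t = h.1.1.left t := by
        intro t
        exact congrArg (fun p => ((p.2 t : D0) : D)) hgh
      apply Subtype.ext
      apply Subtype.ext
      apply RegularWreathProduct.ext
      · funext x
        by_cases hx : x ∈ T
        · exact e2 ⟨x, hx⟩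
        · have h1 : g.1.1.left x = 1 := by
            by_contra h
            exact hx (g.2.2.2 x h)
          have h2 : h.1.1.left x = 1 := by
            by_contra h'
            exact hx (h.2.2.2 x h')
          rw [h1, h2]
      · exact e1
    have : Finite W := Finite.of_injective f hf
    exact Set.toFinite _
  exact (hWfin.subset hle).to_subtype

end Pool.Agent.Helper826.Kap
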